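import Mathlib
import Pool.Agent.Lib.MeadF.MainN

/-!
Every finitely generated extension field of `ℚ`, with `0⁻¹ = 0`, is a finitely presented meadow.
-/

universe u

namespace Pool.Agent.Results.MP_fa3e6c_al.AllTranscendenceDegrees

open Pool.Agent.Lib.MP_fa3e6c_al

/-- If `K = ℚ(c 1, ..., c n)`, of any transcendence degree, then the meadow `K_0` has a finite
presentation. -/
theorem result (K : Type u) [Field K] [CharZero K] (n : ℕ) (c : Fin n → K)
    (hc : IntermediateField.adjoin ℚ (Set.range c) = ⊤) : HasFinitePresentation K :=
  Pool.Agent.Lib.MeadF.main K c hc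

end Pool.Agent.Results.MP_fa3e6c_al.AllTranscendenceDegrees
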